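import Pool.Agent.Helper87.VM.Stmts

set_option autoImplicit false

namespace Pool.Agent.Helper59.VM

open Function Pool.Agent.Helper87.VM

noncomputable section

lemma mem_prod_sq {R : Type} [CommRing R] {ι : Type} [Fintype ι] (f : ι → Ideal R)
    (hf : ∀ i j, i ≠ j → IsCoprime (f i) (f j))
    {x : R} (hx : ∀ i, x ∈ (f i) ^ 2) : x ∈ (∏ i, f i) ^ 2 := by
  classical
  have h1 : x ∈ ∏ i, (f i) ^ 2 := by
    rw [Ideal.prod_eq_iInf_of_pairwise_isCoprime (s := Finset.univ) (J := fun i => (f i) ^ 2)]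
    · simp only [Submodule.mem_iInf]
      intro i _
      exact hx i
    · intro i _ j _ hne
      exact (hf i j hne).pow
  rw [Finset.prod_pow] at h1
  exact h1

lemma mem_of_prod {R : Type} [CommRing R] {ι : Type} [Fintype ι] (f : ι → Ideal R)
    {x : R} (hx : x ∈ ∏ i, f i) (i : ι) : x ∈ f i := by
  have h2 : f i ∣ ∏ i, f i := Finset.dvd_prod_of_mem f (Finset.mem_univ i)
  exact Ideal.le_of_dvd h2 hx

variable {R : Type} [CommRing R] [Algebra ℂ R]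

/-- the invariants -/
def RS (Γ : Subgroup (R ≃ₐ[ℂ] R)) : Subalgebra ℂ R where
  carrier := {r | ∀ γ ∈ Γ, γ r = r}
  mul_mem' := by
    intro a b ha hb γ hγ
    rw [map_mul, ha γ hγ, hb γ hγ]
  add_mem' := by
    intro a b ha hb γ hγ
    rw [map_add, ha γ hγ, hb γ hγ]
  algebraMap_mem' := by
    intro c γ _
    exact γ.commutes c

lemma mem_RS {Γ : Subgroup (R ≃ₐ[ℂ] R)} {x : R} : x ∈ RS Γ ↔ ∀ γ ∈ Γ, γ x = x := Iff.rfl

/-- the invariants as a module over `A` -/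
def RI (A : Subalgebra ℂ R) (Γ : Subgroup (R ≃ₐ[ℂ] R)) (hfix : ∀ γ ∈ Γ, ∀ a ∈ A, γ a = a) :
    Submodule A R where
  carrier := {r | ∀ γ ∈ Γ, γ r = r}
  add_mem' := by
    intro a b ha hb γ hγ
    rw [map_add, ha γ hγ, hb γ hγ]
  zero_mem' := by
    intro γ _
    exact map_zero γ
  smul_mem' := by
    intro a x hx γ hγ
    rw [Algebra.smul_def, map_mul, hx γ hγ]
    have : γ (algebraMap A R a) = algebraMap A R a := hfix γ hγ a.1 a.2
    rw [this]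

lemma mem_RI {A : Subalgebra ℂ R} {Γ : Subgroup (R ≃ₐ[ℂ] R)} {hfix : ∀ γ ∈ Γ, ∀ a ∈ A, γ a = a}
    {x : R} : x ∈ RI A Γ hfix ↔ ∀ γ ∈ Γ, γ x = x := Iff.rfl

/-- the trace -/
def Tr (Γ : Subgroup (R ≃ₐ[ℂ] R)) [Fintype Γ] (x : R) : R := ∑ γ : Γ, (γ : R ≃ₐ[ℂ] R) x

variable (Γ : Subgroup (R ≃ₐ[ℂ] R)) [Fintype Γ]

lemma Tr_add (x y : R) : Tr Γ (x + y) = Tr Γ x + Tr Γ y := by
  unfold Tr
  rw [← Finset.sum_add_distrib]
  exact Finset.sum_congr rfl fun γ _ => map_add _ _ _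

lemma Tr_smul (c : ℂ) (x : R) : Tr Γ (c • x) = c • Tr Γ x := by
  unfold Tr
  rw [Finset.smul_sum]
  exact Finset.sum_congr rfl fun γ _ => map_smul _ _ _

lemma Tr_mem (x : R) : Tr Γ x ∈ RS Γ := by
  intro γ hγ
  unfold Tr
  rw [map_sum]
  exact Fintype.sum_equiv (Equiv.mulLeft (⟨γ, hγ⟩ : Γ)) _ _ (fun δ => rfl)

lemma Tr_mul_left (a x : R) (ha : a ∈ RS Γ) : Tr Γ (a * x) = a * Tr Γ x := by
  unfold Tr
  rw [Finset.mul_sum]
  refine Finset.sum_congr rfl fun γ _ => ?_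
  rw [map_mul, ha γ.1 γ.2]

lemma Tr_of_mem (x : R) (hx : x ∈ RS Γ) : Tr Γ x = (Fintype.card Γ : ℂ) • x := by
  unfold Tr
  rw [Finset.sum_congr rfl (fun γ _ => hx γ.1 γ.2)]
  rw [Finset.sum_const, Finset.card_univ, Nat.cast_smul_eq_nsmul]

lemma card_ne : (Fintype.card Γ : ℂ) ≠ 0 := by
  have : 0 < Fintype.card Γ := Fintype.card_pos
  exact_mod_cast this.ne'

/-- the maximal ideal of `A` -/
def MA (A : Subalgebra ℂ R) (φ : R →ₐ[ℂ] ℂ) : Ideal A :=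
  RingHom.ker ((φ.comp A.val).toRingHom)

lemma mem_MA {A : Subalgebra ℂ R} {φ : R →ₐ[ℂ] ℂ} {a : A} : a ∈ MA A φ ↔ φ a = 0 := Iff.rfl

/-- the map `r -> Tr (e r)` -/
def TrL (e : R) : R →ₗ[ℂ] RS Γ where
  toFun := fun r => ⟨Tr Γ (e * r), Tr_mem Γ (e * r)⟩
  map_add' := by
    intro x y
    apply Subtype.ext
    have : Tr Γ (e * (x + y)) = Tr Γ (e * x) + Tr Γ (e * y) := by
      rw [mul_add, Tr_add]
    exact this
  map_smul' := by
    intro c x
    apply Subtype.ext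
    have : Tr Γ (e * (c • x)) = c • Tr Γ (e * x) := by
      rw [mul_smul_comm, Tr_smul]
    exact this

variable {Γ}

/-- scaling in `A`-submodules -/
lemma csmul_mem {A : Subalgebra ℂ R} (N : Submodule A R) (c : ℂ) {x : R} (hx : x ∈ N) : c • x ∈ N := by
  have : c • x = (algebraMap ℂ A c) • x := by
    rw [algebraMap_smul]
  rw [this]
  exact N.smul_mem _ hx

lemma Tr_mem_smul {A : Subalgebra ℂ R} {φ : R →ₐ[ℂ] ℂ} (hfix : ∀ γ ∈ Γ, ∀ a ∈ A, γ a = a)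
    {x : R} (hx : x ∈ Ideal.span {a : R | a ∈ A ∧ φ a = 0}) :
    Tr Γ x ∈ MA A φ • RI A Γ hfix := by
  have key : ∀ r, Tr Γ (r * x) ∈ MA A φ • RI A Γ hfix := by
    induction hx using Submodule.span_induction with
    | mem a ha =>
      intro r
      rw [mul_comm, Tr_mul_left Γ a r (fun γ hγ => hfix γ hγ a ha.1)]
      have h1 : a * Tr Γ r = (⟨a, ha.1⟩ : A) • Tr Γ r := rfl
      rw [h1]
      exact Submodule.smul_mem_smul (mem_MA.mpr ha.2) (Tr_mem Γ r)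
    | zero =>
      intro r
      rw [mul_zero]
      have : Tr Γ (0 : R) = 0 := by
        unfold Tr
        exact Finset.sum_eq_zero fun γ _ => map_zero _
      rw [this]
      exact zero_mem _
    | add a b _ _ ha hb =>
      intro r
      rw [mul_add, Tr_add]
      exact add_mem (ha r) (hb r)
    | smul c a _ ha =>
      intro r
      rw [smul_eq_mul, ← mul_assoc]
      exact ha _
  have := key 1
  rwa [one_mul] at this

lemma Tr_mem_smul2 {A : Subalgebra ℂ R} {φ : R →ₐ[ℂ] ℂ} (hfix : ∀ γ ∈ Γ, ∀ a ∈ A, γ a = a)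
    {x : R} (hx : x ∈ (Ideal.span {a : R | a ∈ A ∧ φ a = 0}) ^ 2) :
    Tr Γ x ∈ (MA A φ) ^ 2 • RI A Γ hfix := by
  have key : ∀ r, Tr Γ (r * x) ∈ (MA A φ) ^ 2 • RI A Γ hfix := by
    rw [pow_two, Ideal.span_mul_span'] at hx
    induction hx using Submodule.span_induction with
    | mem a ha =>
      intro r
      obtain ⟨b, hb, c, hc, rfl⟩ := Set.mem_mul.mp ha
      have hbc : b * c ∈ A := A.mul_mem hb.1 hc.1
      rw [mul_comm, Tr_mul_left Γ (b * c) r (fun γ hγ => hfix γ hγ _ hbc)]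
      have h1 : b * c * Tr Γ r = ((⟨b, hb.1⟩ : A) * (⟨c, hc.1⟩ : A)) • Tr Γ r := rfl
      rw [h1]
      refine Submodule.smul_mem_smul ?_ (Tr_mem Γ r)
      rw [pow_two]
      exact Ideal.mul_mem_mul (mem_MA.mpr hb.2) (mem_MA.mpr hc.2)
    | zero =>
      intro r
      rw [mul_zero]
      have : Tr Γ (0 : R) = 0 := by
        unfold Tr
        exact Finset.sum_eq_zero fun γ _ => map_zero _
      rw [this]
      exact zero_mem _
    | add a b _ _ ha hb =>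
      intro r
      rw [mul_add, Tr_add]
      exact add_mem (ha r) (hb r)
    | smul c a _ ha =>
      intro r
      rw [smul_eq_mul, ← mul_assoc]
      exact ha _
  have := key 1
  rwa [one_mul] at this

lemma mem_of_Tr {A : Subalgebra ℂ R} (N : Submodule A R) {x : R} (hx : x ∈ RS Γ)
    (h : Tr Γ x ∈ N) : x ∈ N := by
  rw [Tr_of_mem Γ x hx] at h
  have h1 := csmul_mem N ((Fintype.card Γ : ℂ)⁻¹) h
  rwa [smul_smul, inv_mul_cancel₀ (card_ne Γ), one_smul] at h1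

/-- the conductor element -/
lemma exists_s {A : Subalgebra ℂ R} {φ : R →ₐ[ℂ] ℂ} (hfix : ∀ γ ∈ Γ, ∀ a ∈ A, γ a = a)
    (hN : IsNoetherianRing A) (hF : Module.Finite A R)
    (hJ : ∀ r : R, (∀ γ ∈ Γ, φ (γ r) = 0) → r ∈ Ideal.span {a : R | a ∈ A ∧ φ a = 0}) :
    ∃ s : A, φ s = 1 ∧ ∀ x ∈ RS Γ, (s : R) * x ∈ A := by
  set N : Submodule A (R ⧸ (1 : Submodule A R)) := (RI A Γ hfix).map (Submodule.mkQ _) with hNdef
  have hfg : N.FG := by
    have h1 : IsNoetherian A R := isNoetherian_of_isNoetherianRing_of_finite A R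
    exact Submodule.FG.map _ (IsNoetherian.noetherian _)
  have hle : N ≤ MA A φ • N := by
    rintro y ⟨x, hx, rfl⟩
    have hx' : x ∈ RS Γ := hx
    have h1 : x - algebraMap ℂ R (φ x) ∈ RS Γ := by
      exact sub_mem hx' (algebraMap_mem _ _)
    have h2 : x - algebraMap ℂ R (φ x) ∈ Ideal.span {a : R | a ∈ A ∧ φ a = 0} := by
      apply hJ
      intro γ hγ
      rw [h1 γ hγ, map_sub, AlgHom.commutes]
      simp
    have h3 := mem_of_Tr (MA A φ • RI A Γ hfix) h1 (Tr_mem_smul hfix h2)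
    have h4 : (Submodule.mkQ (1 : Submodule A R)) x =
        (Submodule.mkQ (1 : Submodule A R)) (x - algebraMap ℂ R (φ x)) := by
      rw [map_sub]
      have : (Submodule.mkQ (1 : Submodule A R)) (algebraMap ℂ R (φ x)) = 0 := by
        rw [Submodule.mkQ_apply, Submodule.Quotient.mk_eq_zero, Submodule.mem_one]
        exact ⟨algebraMap ℂ A (φ x), rfl⟩
      rw [this, sub_zero]
    rw [h4, hNdef, ← Submodule.map_smul'']
    exact Submodule.mem_map_of_mem h3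
  obtain ⟨s, hs1, hs2⟩ :=
    Submodule.exists_sub_one_mem_and_smul_eq_zero_of_fg_of_le_smul (MA A φ) N hfg hle
  refine ⟨s, ?_, ?_⟩
  · have h1 := mem_MA.mp hs1
    have h2 : φ ((s - 1 : A) : R) = φ s - 1 := by
      rw [AddSubgroupClass.coe_sub, map_sub]
      congr 1
      exact map_one φ
    rw [h2] at h1
    linear_combination h1
  · intro x hx
    have h1 := hs2 (Submodule.mkQ _ x) (Submodule.mem_map_of_mem (show x ∈ RI A Γ hfix from hx))
    rw [← map_smul, Submodule.mkQ_apply, Submodule.Quotient.mk_eq_zero, Submodule.mem_one] at h1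
    obtain ⟨a, ha⟩ := h1
    have : (s : R) * x = a := ha.symm
    rw [this]
    exact a.2

/-- the kernel ideals -/
def mg (φ : R →ₐ[ℂ] ℂ) (γ : R ≃ₐ[ℂ] R) : Ideal R := RingHom.ker ((φ.comp γ.toAlgHom).toRingHom)

lemma mem_mg {φ : R →ₐ[ℂ] ℂ} {γ : R ≃ₐ[ℂ] R} {x : R} : x ∈ mg φ γ ↔ φ (γ x) = 0 := Iff.rfl

omit [Fintype Γ] in
lemma coprime_mg {φ : R →ₐ[ℂ] ℂ} (hfree : ∀ γ ∈ Γ, (∀ r, φ (γ r) = φ r) → γ = 1)
    {γ δ : R ≃ₐ[ℂ] R} (hγ : γ ∈ Γ) (hδ : δ ∈ Γ) (hne : γ ≠ δ) : IsCoprime (mg φ γ) (mg φ δ) := by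
  have hex : ∃ r, φ (γ r) ≠ φ (δ r) := by
    by_contra hno
    push Not at hno
    apply hne
    have h1 : γ * δ⁻¹ = 1 := by
      refine hfree _ (Γ.mul_mem hγ (Γ.inv_mem hδ)) ?_
      intro r
      have h2 := hno (δ⁻¹ r)
      have h3 : δ (δ⁻¹ r) = r := by
        have : (δ * δ⁻¹) r = r := by rw [mul_inv_cancel]; rfl
        exact this
      rw [h3] at h2
      exact h2
    exact mul_inv_eq_one.mp h1
  obtain ⟨r, hr⟩ := hex
  rw [Ideal.isCoprime_iff_exists]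
  set c : ℂ := φ (δ r) - φ (γ r) with hc
  have hc0 : c ≠ 0 := sub_ne_zero.mpr (Ne.symm hr)
  refine ⟨algebraMap ℂ R c⁻¹ * (r - algebraMap ℂ R (φ (γ r))), ?_,
    algebraMap ℂ R c⁻¹ * (algebraMap ℂ R (φ (δ r)) - r), ?_, ?_⟩
  · apply Ideal.mul_mem_left
    rw [mem_mg, map_sub, map_sub, AlgEquiv.commutes, AlgHom.commutes]
    simp
  · apply Ideal.mul_mem_left
    rw [mem_mg, map_sub, map_sub, AlgEquiv.commutes, AlgHom.commutes]
    simp
  · have : algebraMap ℂ R c⁻¹ * (r - algebraMap ℂ R (φ (γ r))) +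
        algebraMap ℂ R c⁻¹ * (algebraMap ℂ R (φ (δ r)) - r) = algebraMap ℂ R (c⁻¹ * c) := by
      rw [map_mul, hc, map_sub]
      ring
    rw [this, inv_mul_cancel₀ hc0, map_one]

/-- elements of all `m_g ^ 2` lie in `I ^ 2` -/
lemma mem_sq {A : Subalgebra ℂ R} {φ : R →ₐ[ℂ] ℂ}
    (hfree : ∀ γ ∈ Γ, (∀ r, φ (γ r) = φ r) → γ = 1)
    (hJ : ∀ r : R, (∀ γ ∈ Γ, φ (γ r) = 0) → r ∈ Ideal.span {a : R | a ∈ A ∧ φ a = 0})
    {x : R} (hx : ∀ γ : Γ, x ∈ (mg φ (γ : R ≃ₐ[ℂ] R)) ^ 2) :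
    x ∈ (Ideal.span {a : R | a ∈ A ∧ φ a = 0}) ^ 2 := by
  have h1 : x ∈ (∏ γ : Γ, mg φ (γ : R ≃ₐ[ℂ] R)) ^ 2 := by
    refine mem_prod_sq (fun γ : Γ => mg φ (γ : R ≃ₐ[ℂ] R)) ?_ hx
    intro γ δ hne
    exact coprime_mg hfree γ.2 δ.2 (fun h => hne (Subtype.ext h))
  have h2 : (∏ γ : Γ, mg φ (γ : R ≃ₐ[ℂ] R)) ≤ Ideal.span {a : R | a ∈ A ∧ φ a = 0} := by
    intro y hy
    apply hJ
    intro γ hγ
    have h3 := mem_of_prod (fun γ : Γ => mg φ (γ : R ≃ₐ[ℂ] R)) hy (⟨γ, hγ⟩ : Γ)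
    exact mem_mg.mp h3
  exact Ideal.pow_right_mono h2 2 h1

lemma map_sq {φ : R →ₐ[ℂ] ℂ} {γ δ : R ≃ₐ[ℂ] R} {x : R} (hx : x ∈ (mg φ (δ * γ)) ^ 2) :
    γ x ∈ (mg φ δ) ^ 2 := by
  rw [pow_two] at hx ⊢
  refine Submodule.mul_induction_on hx ?_ ?_
  · intro a ha b hb
    rw [map_mul]
    exact Ideal.mul_mem_mul ha hb
  · intro a b ha hb
    rw [map_add]
    exact add_mem ha hb

lemma Tr_sq {φ : R →ₐ[ℂ] ℂ} {x : R} (hx : ∀ γ : Γ, x ∈ (mg φ (γ : R ≃ₐ[ℂ] R)) ^ 2) (δ : Γ) :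
    Tr Γ x ∈ (mg φ (δ : R ≃ₐ[ℂ] R)) ^ 2 := by
  unfold Tr
  refine Ideal.sum_mem _ ?_
  intro γ _
  exact map_sq (hx (δ * γ))

theorem st_ALG (hALGJ : ST_ALGJ) : ST_ALG := by
  intro R _ _ A Γ φ δ hN hF hfin hfix horb hfree hunr hder
  classical
  have : Fintype Γ := Fintype.ofFinite Γ
  have hJ := hALGJ R A Γ φ hN hF hfin hfix horb hfree hunr
  obtain ⟨s, hs1, hs2⟩ := exists_s hfix hN hF hJ
  -- multiplication by s
  let mulS : RS Γ →ₗ[ℂ] A :=
    { toFun := fun x => ⟨s * x, hs2 x x.2⟩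
      map_add' := by
        intro x y
        apply Subtype.ext
        exact mul_add _ _ _
      map_smul' := by
        intro c x
        apply Subtype.ext
        exact mul_smul_comm _ _ _ }
  have hmulS : ∀ x : RS Γ, ((mulS x : A) : R) = s * x := fun x => rfl
  let D' : RS Γ →ₗ[ℂ] ℂ := δ.comp mulS - (δ s) • (φ.comp (RS Γ).val).toLinearMap
  have hD' : ∀ x : RS Γ, D' x = δ (mulS x) - δ s * φ x := fun x => rfl
  have hφS : ∀ x : RS Γ, φ (mulS x : A) = φ x := by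
    intro x
    rw [hmulS, map_mul, hs1, one_mul]
  have hD'mul : ∀ x y : RS Γ, D' (x * y) = φ x * D' y + φ y * D' x := by
    intro x y
    have h1 : mulS x * mulS y = s * mulS (x * y) := by
      apply Subtype.ext
      have : (s : R) * x * (s * y) = s * (s * (x * y)) := by ring
      exact this
    have h2 := hder (mulS x) (mulS y)
    rw [h1, hder, hφS, hφS, hφS, hs1] at h2
    have h3 : φ ((x * y : RS Γ) : R) = φ x * φ y := by
      rw [← map_mul]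
      rfl
    rw [hD', hD', hD', h3]
    rw [h3] at h2
    linear_combination h2
  have hAR : ∀ a : A, (a : R) ∈ RS Γ := fun a γ hγ => hfix γ hγ a a.2
  have hD'A : ∀ a : A, D' ⟨a, hAR a⟩ = δ a := by
    intro a
    have h1 : mulS ⟨a, hAR a⟩ = s * a := rfl
    rw [hD', h1, hder, hs1]
    ring
  have hD'1 : D' 1 = 0 := by
    have h1 := hD'mul 1 1
    rw [mul_one] at h1
    have h2 : φ ((1 : RS Γ) : R) = 1 := map_one φ
    rw [h2] at h1
    linear_combination -h1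
  -- vanishing on I^2
  have hvan : ∀ x : R, ∀ hx : x ∈ RS Γ, (∀ γ : Γ, x ∈ (mg φ (γ : R ≃ₐ[ℂ] R)) ^ 2) →
      D' ⟨x, hx⟩ = 0 := by
    intro x hx hsq
    have h1 := mem_sq (A := A) hfree hJ hsq
    have h2 := mem_of_Tr ((MA A φ) ^ 2 • RI A Γ hfix) hx (Tr_mem_smul2 hfix h1)
    have h3 : ∀ a : A, a ∈ (MA A φ) ^ 2 → φ a = 0 ∧ δ a = 0 := by
      intro a ha
      rw [pow_two] at ha
      refine Submodule.mul_induction_on ha ?_ ?_
      · intro b hb c hc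
        refine ⟨?_, ?_⟩
        · have : ((b * c : A) : R) = b * c := rfl
          rw [this, map_mul, mem_MA.mp hb, zero_mul]
        · rw [hder, mem_MA.mp hb, mem_MA.mp hc, zero_mul, zero_mul, add_zero]
      · intro b c hb hc
        refine ⟨?_, ?_⟩
        · have : ((b + c : A) : R) = b + c := rfl
          rw [this, map_add, hb.1, hc.1, add_zero]
        · rw [map_add, hb.2, hc.2, add_zero]
    have h4 : ∃ hy : x ∈ RS Γ, D' ⟨x, hy⟩ = 0 := by
      refine Submodule.smul_induction_on h2 ?_ ?_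
      · intro a ha n hn
        have hn' : n ∈ RS Γ := hn
        refine ⟨(RS Γ).mul_mem (hAR a) hn', ?_⟩
        have h5 : D' ⟨a • n, (RS Γ).mul_mem (hAR a) hn'⟩ =
            D' ((⟨a, hAR a⟩ : RS Γ) * (⟨n, hn'⟩ : RS Γ)) := rfl
        rw [h5, hD'mul, hD'A]
        have h6 : φ ((⟨(a : R), hAR a⟩ : RS Γ) : R) = 0 := (h3 a ha).1
        rw [h6, (h3 a ha).2]
        ring
      · rintro y z ⟨hy, hy2⟩ ⟨hz, hz2⟩
        refine ⟨add_mem hy hz, ?_⟩
        have h5 : D' ⟨y + z, add_mem hy hz⟩ = D' ((⟨y, hy⟩ : RS Γ) + (⟨z, hz⟩ : RS Γ)) := rfl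
        rw [h5, map_add, hy2, hz2, add_zero]
    exact h4.2
  -- Chinese remainder
  have hcop : Pairwise (IsCoprime on fun γ : Γ => (mg φ (γ : R ≃ₐ[ℂ] R)) ^ 2) := by
    intro γ γ' hne
    have : (γ : R ≃ₐ[ℂ] R) ≠ γ' := fun h => hne (Subtype.ext h)
    exact (coprime_mg hfree γ.2 γ'.2 this).pow
  obtain ⟨e, he⟩ := Ideal.exists_forall_sub_mem_ideal hcop (fun γ => if γ = 1 then 1 else 0)
  have he1 : e - 1 ∈ (mg φ (1 : R ≃ₐ[ℂ] R)) ^ 2 := by
    have := he 1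
    simpa using this
  have he2 : ∀ γ : Γ, γ ≠ 1 → e ∈ (mg φ (γ : R ≃ₐ[ℂ] R)) ^ 2 := by
    intro γ hγ
    have := he γ
    rw [if_neg hγ, sub_zero] at this
    exact this
  -- the trace of e
  have hu : ∀ γ : Γ, Tr Γ e - 1 ∈ (mg φ (γ : R ≃ₐ[ℂ] R)) ^ 2 := by
    intro h
    have h1 : Tr Γ e - 1 = ∑ γ : Γ, ((γ : R ≃ₐ[ℂ] R) e - if h * γ = 1 then 1 else 0) := by
      rw [Finset.sum_sub_distrib]
      congr 1
      have : ∀ γ : Γ, (h * γ = 1) = (γ = h⁻¹) := by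
        intro γ
        exact propext ⟨fun hh => eq_inv_of_mul_eq_one_right hh, fun hh => by rw [hh, mul_inv_cancel]⟩
      simp only [this]
      simp
    rw [h1]
    refine Ideal.sum_mem _ ?_
    intro γ _
    by_cases hc : h * γ = 1
    · rw [if_pos hc]
      have h2 : (γ : R ≃ₐ[ℂ] R) e - 1 = (γ : R ≃ₐ[ℂ] R) (e - 1) := by rw [map_sub, map_one]
      rw [h2]
      apply map_sq
      have h3 : (h : R ≃ₐ[ℂ] R) * γ = 1 := by
        have := congrArg (fun z : Γ => (z : R ≃ₐ[ℂ] R)) hc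
        exact this
      rw [h3]
      exact he1
    · rw [if_neg hc, sub_zero]
      apply map_sq
      exact he2 (h * γ) hc
  have hmg1 : ∀ x : R, x ∈ (mg φ (1 : R ≃ₐ[ℂ] R)) ^ 2 → φ x = 0 := by
    intro x hx
    exact mem_mg.mp (Ideal.pow_le_self two_ne_zero hx)
  have hDu : D' ⟨Tr Γ e, Tr_mem Γ e⟩ = 0 := by
    have h1 : (⟨Tr Γ e, Tr_mem Γ e⟩ : RS Γ) =
        1 + ⟨Tr Γ e - 1, sub_mem (Tr_mem Γ e) (RS Γ).one_mem⟩ := by
      apply Subtype.ext
      have : Tr Γ e = 1 + (Tr Γ e - 1) := by ring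
      exact this
    rw [h1, map_add, hD'1, hvan _ _ hu, add_zero]
  have hφu : φ (Tr Γ e) = 1 := by
    have h1 := hmg1 _ (hu 1)
    rw [map_sub, map_one] at h1
    linear_combination h1
  -- the derivation
  let D : R →ₗ[ℂ] ℂ := D'.comp (TrL Γ e)
  have hD : ∀ r, D r = D' ⟨Tr Γ (e * r), Tr_mem Γ (e * r)⟩ := fun r => rfl
  have hDA : ∀ a : A, D a = δ a := by
    intro a
    have h1 : (⟨Tr Γ (e * a), Tr_mem Γ (e * a)⟩ : RS Γ) =
        (⟨a, hAR a⟩ : RS Γ) * ⟨Tr Γ e, Tr_mem Γ e⟩ := by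
      apply Subtype.ext
      have : Tr Γ (e * a) = a * Tr Γ e := by
        rw [mul_comm, Tr_mul_left Γ _ _ (hAR a)]
      exact this
    rw [hD, h1, hD'mul, hDu, hD'A]
    have h2 : φ ((⟨Tr Γ e, Tr_mem Γ e⟩ : RS Γ) : R) = 1 := hφu
    rw [h2]
    ring
  have hD1 : D 1 = 0 := by
    have h1 : (⟨Tr Γ (e * 1), Tr_mem Γ (e * 1)⟩ : RS Γ) = ⟨Tr Γ e, Tr_mem Γ e⟩ := by
      apply Subtype.ext
      have : Tr Γ (e * 1) = Tr Γ e := by rw [mul_one]
      exact this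
    rw [hD, h1, hDu]
  have hDmm : ∀ r s : R, φ r = 0 → φ s = 0 → D (r * s) = 0 := by
    intro r t hr ht
    rw [hD]
    apply hvan
    apply Tr_sq
    intro γ
    by_cases hγ : γ = 1
    · apply Ideal.mul_mem_left
      rw [hγ, pow_two]
      exact Ideal.mul_mem_mul (mem_mg.mpr hr) (mem_mg.mpr ht)
    · apply Ideal.mul_mem_right
      exact he2 γ hγ
  refine ⟨D, ?_, hDA⟩
  intro r t
  have hr : r = algebraMap ℂ R (φ r) + (r - algebraMap ℂ R (φ r)) := by ring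
  have ht : t = algebraMap ℂ R (φ t) + (t - algebraMap ℂ R (φ t)) := by ring
  have h0 : D ((r - algebraMap ℂ R (φ r)) * (t - algebraMap ℂ R (φ t))) = 0 := by
    apply hDmm
    · rw [map_sub, AlgHom.commutes]
      simp
    · rw [map_sub, AlgHom.commutes]
      simp
  have h1 : (r - algebraMap ℂ R (φ r)) * (t - algebraMap ℂ R (φ t)) =
      r * t - (φ r) • t - (φ t) • r + (φ r * φ t) • (1 : R) := by
    rw [Algebra.smul_def, Algebra.smul_def, Algebra.smul_def, map_mul]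
    ring
  rw [h1, map_add, map_sub, map_sub, map_smul, map_smul, map_smul, hD1] at h0
  simp only [smul_eq_mul, mul_zero, add_zero] at h0
  linear_combination h0

end

end Pool.Agent.Helper59.VM
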